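import Pool.Agent.Y667.RP.Stm
import Pool.Agent.Y660.RP.SV5

/-!
RP project (helper667), task SV (helper660): the weighted linear sieve, final form.
-/

set_option autoImplicit false

namespace Pool.Agent.Y660.RP

open Finset Pool.Agent.W23.DC Pool.Agent.Y667.RP

theorem Lv_eq (z : ℕ) (D : ℝ) : Lv' z D = Lev z D := by
  unfold Lv' Lev
  ext q
  simp only [mem_filter]

theorem Rr_eq {ι : Type} (Ω : Finset ι) (v : ι → ℕ) (g : ℕ → ℝ) (A : ℝ) (q : ℕ) :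
    Rr Ω v g A q = Rq Ω v g A q := by
  unfold Rr Rq gp
  rfl

theorem P1_eq (N z : ℕ) (ε : ℝ) [DecidablePred (fun p : ℕ => p.Prime ∧ (p : ℝ) < (N : ℝ) ^ ε)] :
    P1 N z ε = (Ioc z N).filter (fun p : ℕ => p.Prime ∧ (p : ℝ) < (N : ℝ) ^ ε) := by
  ext p
  rw [mem_P1]
  simp only [mem_filter, mem_Ioc]

theorem RR_iff {N z : ℕ} (hN : 2 ≤ N) {ε : ℝ} (hε : ε ≤ 1 / 8) (hz : (z : ℝ) < (N : ℝ) ^ ε)
    (n : ℕ) : RR N z n ↔ (∀ p ∈ P1 N z ε, ¬ p ∣ n) ∧ ∀ p ∈ pr N ε (1 / 4), ¬ p ∣ n := by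
  have hNr : (1 : ℝ) < N := by exact_mod_cast (by omega : 1 < N)
  have hmono : (N : ℝ) ^ ε ≤ (N : ℝ) ^ (1 / 4 : ℝ) :=
    Real.rpow_le_rpow_of_exponent_le hNr.le (by linarith)
  have hle : (N : ℝ) ^ (1 / 4 : ℝ) ≤ N := by
    calc (N : ℝ) ^ (1 / 4 : ℝ) ≤ (N : ℝ) ^ (1 : ℝ) :=
          Real.rpow_le_rpow_of_exponent_le hNr.le (by norm_num)
      _ = N := Real.rpow_one _
  constructor
  · intro h
    constructor
    · intro p hp
      rw [mem_P1] at hp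
      exact h p hp.2.1 hp.1.1 (hp.2.2.trans_le hmono)
    · intro p hp
      rw [mem_pr] at hp
      have h1 := (le_tt_iff hN hp.2.1 ε).1 hp.2.2.1
      have h2 := (tt_lt_iff hN hp.2.1 _).1 hp.2.2.2
      exact h p hp.2.1 (by exact_mod_cast hz.trans_le h1) h2
  · rintro ⟨h1, h2⟩ p hp hzp hp4
    have hpN : p ≤ N := by exact_mod_cast (hp4.le.trans hle)
    by_cases h3 : (p : ℝ) < (N : ℝ) ^ ε
    · exact h1 p (mem_P1.2 ⟨⟨hzp, hpN⟩, hp, h3⟩)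
    · exact h2 p (mem_pr.2 ⟨⟨hp.pos, hpN⟩, hp, (le_tt_iff hN hp ε).2 (not_lt.1 h3),
        (tt_lt_iff hN hp _).2 hp4⟩)

open Classical in
theorem Wt_eq {N : ℕ} (hN : 2 ≤ N) (n : ℕ) :
    Wt N n = 1 - ∑ q ∈ pr N (1 / 4) (97 / 100), cq N q * (if q ∣ n then 1 else 0) := by
  unfold Wt
  congr 1
  have h1 : (Icc 1 N).filter (fun q : ℕ => q.Prime ∧ (N : ℝ) ^ (1 / 4 : ℝ) ≤ q ∧
      (q : ℝ) < (N : ℝ) ^ (97 / 100 : ℝ) ∧ q ∣ n) =
      (pr N (1 / 4) (97 / 100)).filter (fun q => q ∣ n) := by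
    ext q
    simp only [mem_filter, mem_pr, mem_Icc]
    constructor
    · rintro ⟨h1, h2, h3, h4, h5⟩
      exact ⟨⟨h1, h2, (le_tt_iff hN h2 _).2 h3, (tt_lt_iff hN h2 _).2 h4⟩, h5⟩
    · rintro ⟨⟨h1, h2, h3, h4⟩, h5⟩
      exact ⟨h1, h2, (le_tt_iff hN h2 _).1 h3, (tt_lt_iff hN h2 _).1 h4, h5⟩
  rw [h1, Finset.mul_sum, Finset.sum_filter]
  apply Finset.sum_congr rfl
  intro q _
  unfold cq tt
  split_ifs <;> ring

/-- **SV** (the weighted linear sieve and the upper bound sieve). -/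
theorem SV : St_SV := by
  classical
  obtain ⟨A0, C0, hA0, h⟩ := core
  refine ⟨A0, C0, hA0, ?_⟩
  intro z hz η hη
  obtain ⟨ε, hε, hε8, N0, hN0, hc⟩ := h z hz η hη
  refine ⟨ε, hε, hε8, N0, ?_⟩
  intro N hN ι Ω v g A S hA hS hSN hg
  obtain ⟨hzN, hc⟩ := hc N hN
  have hN2 : 2 ≤ N := hN0.trans hN
  obtain ⟨hlow, hup⟩ := hc ι Ω v g A S hA hS hSN hg
  have hR : ∀ D : ℝ, ∑ q ∈ Lv' z D, Rr Ω v g A q = ∑ q ∈ Lev z D, Rq Ω v g A q := by
    intro D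
    rw [Lv_eq]
    exact Finset.sum_congr rfl fun q _ => Rr_eq Ω v g A q
  have hf : ∀ F : ℕ → ℝ, ∑ i ∈ Ω.filter (fun i => ∀ p ∈ P1 N z ε, ¬ p ∣ v i), II N ε (v i) * F (v i) =
      ∑ i ∈ Ω.filter (fun i => RR N z (v i)), F (v i) := by
    intro F
    rw [Finset.sum_filter, Finset.sum_filter]
    apply Finset.sum_congr rfl
    intro i _
    have h1 := RR_iff hN2 hε8 hzN (v i)
    unfold II
    by_cases h2 : ∀ p ∈ P1 N z ε, ¬ p ∣ v i
    · by_cases h3 : ∀ p ∈ pr N ε (1 / 4), ¬ p ∣ v i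
      · rw [if_pos h2, if_pos h3, if_pos (h1.2 ⟨h2, h3⟩), one_mul]
      · rw [if_pos h2, if_neg h3, if_neg (fun h4 => h3 (h1.1 h4).2), zero_mul]
    · rw [if_neg h2, if_neg (fun h4 => h2 (h1.1 h4).1)]
  constructor
  · rw [hR, P1_eq] at hlow
    refine hlow.trans (le_of_eq ?_)
    have h1 : ∀ i ∈ Ω.filter (fun i => RR N z (v i)), Wt N (v i) =
        1 - ∑ q ∈ pr N (1 / 4) (97 / 100), cq N q * (if q ∣ v i then 1 else 0) :=
      fun i _ => Wt_eq hN2 (v i)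
    have h2 := hf (fun n => Wt N n)
    refine Eq.trans ?_ h2
    refine Finset.sum_congr ?_ ?_
    · ext i
      simp only [mem_filter, mem_Ioc, mem_P1]
    · intro i _
      rw [Wt_eq hN2]
  · intro τ h9 h34
    have h1 := hup τ h9 h34
    rw [hR, P1_eq] at h1
    refine le_trans (le_of_eq ?_) h1
    have h2 := hf (fun _ => 1)
    simp only [mul_one] at h2
    rw [Finset.card_eq_sum_ones]
    push_cast
    rw [← h2]
    refine Finset.sum_congr ?_ ?_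
    · ext i
      simp only [mem_filter, mem_Ioc, mem_P1]
    · intro i _
      rfl

end Pool.Agent.Y660.RP

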