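import Pool.Agent.W23.DC.Fin3
import Pool.Agent.H20R2.EN.FLem

/-!
RP project (helper667), task SV (helper660): preliminary sieve.
-/

set_option autoImplicit false

namespace Pool.Agent.Y660.RP

open Finset Pool.Agent.W23.DC

/-- the product of the densities -/
noncomputable def gp (g : ℕ → ℝ) (e : ℕ) : ℝ := ∏ p ∈ e.primeFactors, g p

/-- the remainder -/
noncomputable def Rr {ι : Type} (Ω : Finset ι) (v : ι → ℕ) (g : ℕ → ℝ) (A : ℝ) (q : ℕ) : ℝ :=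
  |((Ω.filter (fun i => q ∣ v i)).card : ℝ) - A * gp g q|

theorem Rr_nonneg {ι : Type} (Ω : Finset ι) (v : ι → ℕ) (g : ℕ → ℝ) (A : ℝ) (q : ℕ) :
    0 ≤ Rr Ω v g A q := abs_nonneg _

theorem sum_fib {ι : Type} (S : Finset ι) (v : ι → ℕ) (q : ℕ → Prop) [DecidablePred q] :
    ∑ m ∈ (S.image v).filter q, ((S.filter (fun i => v i = m)).card : ℝ) =
      ((S.filter (fun i => q (v i))).card : ℝ) := by
  classical
  have h := Finset.card_eq_sum_card_fiberwise (s := S.filter (fun i => q (v i)))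
    (t := (S.image v).filter q) (f := v) (by
      intro i hi
      simp only [coe_filter, Set.mem_ofPred_eq] at hi
      simp only [coe_filter, Set.mem_ofPred_eq]
      exact ⟨mem_image_of_mem _ hi.1, hi.2⟩)
  rw [h]
  push_cast
  apply Finset.sum_congr rfl
  intro m hm
  rw [mem_filter] at hm
  congr 2
  ext i
  simp only [mem_filter]
  constructor
  · rintro ⟨h1, h2⟩
    exact ⟨⟨h1, h2 ▸ hm.2⟩, h2⟩
  · rintro ⟨⟨h1, -⟩, h2⟩
    exact ⟨h1, h2⟩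

theorem gp_one (g : ℕ → ℝ) : gp g 1 = 1 := by simp [gp]

theorem gp_mul (g : ℕ → ℝ) {a b : ℕ} (h : Nat.Coprime a b) : gp g (a * b) = gp g a * gp g b := by
  unfold gp
  rw [h.primeFactors_mul, Finset.prod_union h.disjoint_primeFactors]

theorem gp_prod (g : ℕ → ℝ) (T : Finset ℕ) (hT : ∀ p ∈ T, p.Prime) :
    gp g (∏ p ∈ T, p) = ∏ p ∈ T, g p := by
  unfold gp
  rw [Nat.primeFactors_prod hT]

theorem cop_prod {P T : Finset ℕ} {e : ℕ} (hP : ∀ p ∈ P, p.Prime) (hT : T ⊆ P)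
    (he : ∀ p ∈ P, ¬ p ∣ e) : Nat.Coprime e (∏ p ∈ T, p) := by
  apply Nat.Coprime.prod_right
  intro p hp
  exact ((hP p (hT hp)).coprime_iff_not_dvd.2 (he p (hT hp))).symm

theorem prod_dvd {T : Finset ℕ} (hT : ∀ p ∈ T, p.Prime) (m : ℕ) :
    (∏ p ∈ T, p ∣ m) ↔ ∀ p ∈ T, p ∣ m := by
  constructor
  · intro h p hp
    exact (Finset.dvd_prod_of_mem _ hp).trans h
  · intro h
    apply Finset.prod_primes_dvd
    · intro p hp
      exact (hT p hp).prime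
    · exact h

theorem mul_dvd_iff_and {a b c : ℕ} (h : Nat.Coprime a b) : a * b ∣ c ↔ a ∣ c ∧ b ∣ c :=
  ⟨fun h1 => ⟨(Dvd.intro _ rfl).trans h1, (Dvd.intro_left _ rfl).trans h1⟩,
    fun h1 => h.mul_dvd_of_dvd_of_dvd h1.1 h1.2⟩

open Classical in
theorem fund : ∃ C0 : ℕ, 1 ≤ C0 ∧ ∀ (b J z : ℕ) (P : Finset ℕ) (g : ℕ → ℝ), C0 ≤ b → C0 ≤ z →
    (∀ p ∈ P, p.Prime ∧ z < p ∧ p ≤ 2 ^ 2 ^ J) →
    (∀ p ∈ P, 0 ≤ g p ∧ g p ≤ 1 / ((p : ℝ) - 1)) →
    ∀ (ι : Type) (Ω : Finset ι) (v : ι → ℕ) (A : ℝ) (e : ℕ), 0 ≤ A → 0 ≤ gp g e →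
    (∀ p ∈ P, ¬ p ∣ e) →
    |(((Ω.filter (fun i => ∀ p ∈ P, ¬ p ∣ v i)).filter (fun i => e ∣ v i)).card : ℝ) -
      A * gp g e * ∏ p ∈ P, (1 - g p)| ≤
      (1 / 2 : ℝ) ^ b * (A * gp g e * ∏ p ∈ P, (1 - g p)) +
        ((J : ℝ) + 2) * ∑ T ∈ P.powerset.filter
          (fun T : Finset ℕ => ∏ p ∈ T, p ≤ (2 ^ 2 ^ J) ^ (C0 * b)),
          Rr Ω v g A (e * ∏ p ∈ T, p) := by
  obtain ⟨C0, h1, h⟩ := Pool.Agent.H20R2.fLem 1
  refine ⟨C0, h1, ?_⟩
  intro b J z P g hb hz hP hg ι Ω v A e hA hge hPe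
  have key := h b J z P g hb hz hP (by simpa using hg) ((Ω.filter (fun i => e ∣ v i)).image v)
    (fun m => (((Ω.filter (fun i => e ∣ v i)).filter (fun i => v i = m)).card : ℝ))
    (fun p m => p ∣ m) (A * gp g e) (fun T => Rr Ω v g A (e * ∏ p ∈ T, p))
    (fun m _ => Nat.cast_nonneg _) (by positivity) (by
      intro T hT _
      rw [sum_fib]
      unfold Rr
      have hc := cop_prod (fun p hp => (hP p hp).1) hT hPe
      have hTp : ∀ p ∈ T, p.Prime := fun p hp => (hP p (hT hp)).1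
      rw [gp_mul g hc, gp_prod g T hTp, ← mul_assoc]
      apply le_of_eq
      congr 3
      rw [Finset.filter_filter]
      congr 1
      ext i
      simp only [mem_filter]
      rw [mul_dvd_iff_and hc, prod_dvd hTp])
  rw [sum_fib] at key
  rw [Finset.filter_filter] at key ⊢
  convert key using 6
  exact and_comm

end Pool.Agent.Y660.RP
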