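import Pool.Agent.Y660.RP.SV1
import Pool.Agent.W120.DC.LN
import Pool.Agent.W52.DC.PT
import Pool.Agent.W586.DC.ER

/-!
RP project (helper667), task SV (helper660): sizes, injectivity of the moduli, linearity.
-/

set_option autoImplicit false

namespace Pool.Agent.Y660.RP

open Finset Pool.Agent.W23.DC

theorem log_eq_sz {N : ℕ} (hN : 2 ≤ N) {e : ℕ} (he : Squarefree e) :
    Real.log e = sz (tt N) e * Real.log N := by
  have hL : Real.log N ≠ 0 := (Real.log_pos (by exact_mod_cast (by omega : 1 < N))).ne'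
  unfold sz tt
  rw [Finset.sum_mul]
  have h1 : ∑ p ∈ e.primeFactors, Real.log p / Real.log N * Real.log N =
      ∑ p ∈ e.primeFactors, Real.log p := by
    apply Finset.sum_congr rfl
    intro p _
    field_simp
  rw [h1]
  have h2 : (e : ℝ) = ∏ p ∈ e.primeFactors, (p : ℝ) := by
    rw [← Nat.cast_prod, Nat.prod_primeFactors_of_squarefree he]
  rw [h2, Real.log_prod]
  · intro p hp
    exact_mod_cast (Nat.prime_of_mem_primeFactors hp).ne_zero

theorem sz_mul {t : ℕ → ℝ} {u v : ℕ} (h : Nat.Coprime u v) : sz t (u * v) = sz t u + sz t v := by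
  unfold sz
  rw [h.primeFactors_mul, Finset.sum_union h.disjoint_primeFactors]

/-- the size of the elements of `EE` -/
theorem EE_le {N : ℕ} (hN : 2 ≤ N) {u v τ ζ : ℝ} (hτ : 0 ≤ τ) {e : ℕ}
    (h : e ∈ EE (pr N u v) (tt N) τ ζ) : (e : ℝ) ≤ (N : ℝ) ^ τ := by
  obtain ⟨h0, hs, -, hw⟩ := mem_EE h
  obtain ⟨x, y, hxy, hx, hy⟩ := hw τ 0 hτ le_rfl (by ring)
  have hc : Nat.Coprime x y := by
    rw [← hxy] at hs
    exact Nat.coprime_of_squarefree_mul hs
  have h1 : sz (tt N) e ≤ τ := by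
    rw [← hxy, sz_mul hc]
    linarith
  have hNr : (1 : ℝ) < N := by exact_mod_cast (by omega : 1 < N)
  have hL : 0 < Real.log N := Real.log_pos hNr
  have he : (0 : ℝ) < e := by exact_mod_cast Nat.pos_of_ne_zero h0
  rw [← Real.log_le_log_iff he (Real.rpow_pos_of_pos (by linarith) _),
    Real.log_rpow (by linarith), log_eq_sz hN hs]
  exact mul_le_mul_of_nonneg_right h1 hL.le

open Classical in
/-- the sum of the densities over the products of distinct elements of `P` -/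
theorem sum_EE_le (P : Finset ℕ) (t : ℕ → ℝ) (hP : ∀ p ∈ P, p.Prime) (g : ℕ → ℝ)
    (hg : ∀ p ∈ P, 0 ≤ g p) (τ ζ : ℝ) :
    ∑ e ∈ EE P t τ ζ, gp g e ≤ ∏ p ∈ P, (1 + g p) := by
  have h0 : ∀ s ∈ P.powerset, gp g (∏ p ∈ s, p) = ∏ p ∈ s, g p := by
    intro s hs
    exact gp_prod g s fun p hp => hP p (mem_powerset.1 hs hp)
  have h1 : EE P t τ ζ ⊆ P.powerset.image (fun s => ∏ p ∈ s, p) := by
    intro e he
    unfold EE at he
    rw [mem_filter, mem_image] at he
    obtain ⟨⟨s, hs, rfl⟩, -⟩ := he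
    rw [mem_image]
    exact ⟨s, powerset_mono.2 (filter_subset _ _) hs, rfl⟩
  have hinj : Set.InjOn (fun s : Finset ℕ => ∏ p ∈ s, p) (P.powerset : Set (Finset ℕ)) := by
    intro s hs s' hs' h
    have e1 : ∀ s ∈ P.powerset, (∏ p ∈ s, p).primeFactors = s := fun s hs =>
      Nat.primeFactors_prod fun p hp => hP p (mem_powerset.1 hs hp)
    rw [← e1 s hs, ← e1 s' hs']
    exact congrArg _ h
  calc ∑ e ∈ EE P t τ ζ, gp g e
      ≤ ∑ e ∈ P.powerset.image (fun s => ∏ p ∈ s, p), gp g e := by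
        apply Finset.sum_le_sum_of_subset_of_nonneg h1
        intro e he _
        rw [mem_image] at he
        obtain ⟨s, hs, rfl⟩ := he
        rw [h0 s hs]
        exact Finset.prod_nonneg fun p hp => hg p (mem_powerset.1 hs hp)
    _ = ∑ s ∈ P.powerset, ∏ p ∈ s, g p := by
        rw [Finset.sum_image hinj]
        exact Finset.sum_congr rfl h0
    _ = ∏ p ∈ P, (1 + g p) := by
        rw [Finset.prod_one_add]

/-- linearity over an arbitrary finite family -/
theorem LL_sum {ι : Type} (P : Finset ℕ) (t : ℕ → ℝ) (Ω : Finset ι) (G : ι → ℕ → ℝ) (k : ℕ)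
    (b : Bool) (τ ζ : ℝ) (d : ℕ) :
    LL P t (fun e => ∑ i ∈ Ω, G i e) k b τ ζ d = ∑ i ∈ Ω, LL P t (G i) k b τ ζ d := by
  classical
  have hLN := Pool.Agent.W120.DC.LN
  induction Ω using Finset.induction_on with
  | empty =>
    have h := hLN.2.1 P t (-1) (fun _ => 0) (fun _ => 0) k b τ ζ d
    simp only [sum_empty]
    simp only [mul_zero, add_zero] at h
    linarith
  | insert i s hi ih =>
    rw [Finset.sum_insert hi, ← ih]
    have h := hLN.2.1 P t 1 (G i) (fun e => ∑ j ∈ s, G j e) k b τ ζ d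
    simp only [one_mul] at h
    rw [← h]
    congr 1
    funext e
    rw [Finset.sum_insert hi]

open Classical in
/-- the small primes -/
noncomputable def P1 (N z : ℕ) (ε : ℝ) : Finset ℕ :=
  (Ioc z N).filter (fun p : ℕ => p.Prime ∧ (p : ℝ) < (N : ℝ) ^ ε)

theorem mem_P1 {N z : ℕ} {ε : ℝ} {p : ℕ} :
    p ∈ P1 N z ε ↔ (z < p ∧ p ≤ N) ∧ p.Prime ∧ (p : ℝ) < (N : ℝ) ^ ε := by
  simp only [P1, mem_filter, mem_Ioc]

theorem tt_lt_iff {N p : ℕ} (hN : 2 ≤ N) (hp : p.Prime) (a : ℝ) :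
    tt N p < a ↔ (p : ℝ) < (N : ℝ) ^ a := by
  have hNr : (1 : ℝ) < N := by exact_mod_cast (by omega : 1 < N)
  have hL : 0 < Real.log N := Real.log_pos hNr
  have hp0 : (0 : ℝ) < p := by exact_mod_cast hp.pos
  unfold tt
  rw [div_lt_iff₀ hL, ← Real.log_rpow (by linarith),
    Real.log_lt_log_iff hp0 (Real.rpow_pos_of_pos (by linarith) _)]

theorem le_tt_iff {N p : ℕ} (hN : 2 ≤ N) (hp : p.Prime) (a : ℝ) :
    a ≤ tt N p ↔ (N : ℝ) ^ a ≤ (p : ℝ) := by
  rw [← not_lt, tt_lt_iff hN hp, not_lt]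

open Classical in
/-- squarefree moduli up to `D` with all the prime factors `> z` -/
noncomputable def Lv' (z : ℕ) (D : ℝ) : Finset ℕ :=
  (Icc 1 ⌊D⌋₊).filter (fun q => Squarefree q ∧ ∀ p ∈ q.primeFactors, z < p)

/-- the parts of a number -/
noncomputable def part1 (N : ℕ) (ε : ℝ) (m : ℕ) : Finset ℕ :=
  m.primeFactors.filter (fun p => tt N p < ε)
noncomputable def part2 (N : ℕ) (ε w : ℝ) (m : ℕ) : Finset ℕ :=
  m.primeFactors.filter (fun p => ε ≤ tt N p ∧ tt N p < w)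
noncomputable def part3 (N : ℕ) (w : ℝ) (m : ℕ) : Finset ℕ :=
  m.primeFactors.filter (fun p => w ≤ tt N p)

open Classical in
/-- the sum over the moduli `d e ∏ T` -/
theorem moduli {N z : ℕ} (hN : 2 ≤ N) {ε w D : ℝ} (hεw : ε ≤ w)
    (hz : (z : ℝ) < (N : ℝ) ^ ε) (Q : Finset ℕ) (τ ζ : ℕ → ℝ) (TT : Finset (Finset ℕ))
    (hQ : ∀ d ∈ Q, d ≠ 0 ∧ Squarefree d ∧ ∀ p ∈ d.primeFactors, w ≤ tt N p)
    (hT : ∀ T ∈ TT, T ⊆ P1 N z ε)
    (hD : ∀ d ∈ Q, ∀ e ∈ EE (pr N ε w) (tt N) (τ d) (ζ d), ∀ T ∈ TT,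
      ((d * e * ∏ p ∈ T, p : ℕ) : ℝ) ≤ D)
    (R : ℕ → ℝ) (hR : ∀ m, 0 ≤ R m) :
    ∑ d ∈ Q, ∑ e ∈ EE (pr N ε w) (tt N) (τ d) (ζ d), ∑ T ∈ TT, R (d * e * ∏ p ∈ T, p) ≤
      ∑ m ∈ Lv' z D, R m := by
  set S : Finset ((_ : ℕ) × ((_ : ℕ) × Finset ℕ)) :=
    Q.sigma (fun d => (EE (pr N ε w) (tt N) (τ d) (ζ d)).sigma (fun _ => TT)) with hS
  have hTp : ∀ T ∈ TT, ∀ p ∈ T, p.Prime := fun T h p hp => (mem_P1.1 (hT T h hp)).2.1
  have hTf : ∀ T ∈ TT, (∏ p ∈ T, p).primeFactors = T := fun T h => Nat.primeFactors_prod (hTp T h)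
  have hT0 : ∀ T ∈ TT, ∏ p ∈ T, p ≠ 0 := fun T h =>
    Finset.prod_ne_zero_iff.2 fun p hp => (hTp T h p hp).ne_zero
  have hTt : ∀ T ∈ TT, ∀ p ∈ T, tt N p < ε := fun T h p hp =>
    (tt_lt_iff hN (hTp T h p hp) _).2 (mem_P1.1 (hT T h hp)).2.2
  -- the prime factors
  have hpf : ∀ d ∈ Q, ∀ e ∈ EE (pr N ε w) (tt N) (τ d) (ζ d), ∀ T ∈ TT,
      (d * e * ∏ p ∈ T, p).primeFactors = (d.primeFactors ∪ e.primeFactors) ∪ T := by
    intro d hd e he T hTT
    have h1 := (hQ d hd).1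
    have h2 := (mem_EE he).1
    rw [Nat.primeFactors_mul (mul_ne_zero h1 h2) (hT0 T hTT), Nat.primeFactors_mul h1 h2,
      hTf T hTT]
  have hp1 : ∀ d ∈ Q, ∀ e ∈ EE (pr N ε w) (tt N) (τ d) (ζ d), ∀ T ∈ TT,
      part1 N ε (d * e * ∏ p ∈ T, p) = T := by
    intro d hd e he T hTT
    unfold part1
    rw [hpf d hd e he T hTT]
    ext p
    simp only [mem_filter, mem_union]
    constructor
    · rintro ⟨(h | h) | h, h'⟩
      · have := (hQ d hd).2.2 p h
        linarith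
      · have := ((mem_EE he).2.2.1 p h).1
        linarith
      · exact h
    · intro h
      exact ⟨Or.inr h, hTt T hTT p h⟩
  have hp2 : ∀ d ∈ Q, ∀ e ∈ EE (pr N ε w) (tt N) (τ d) (ζ d), ∀ T ∈ TT,
      part2 N ε w (d * e * ∏ p ∈ T, p) = e.primeFactors := by
    intro d hd e he T hTT
    unfold part2
    rw [hpf d hd e he T hTT]
    ext p
    simp only [mem_filter, mem_union]
    constructor
    · rintro ⟨(h | h) | h, h', h''⟩
      · have := (hQ d hd).2.2 p h
        linarith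
      · exact h
      · have := hTt T hTT p h
        linarith
    · intro h
      exact ⟨Or.inl (Or.inr h), (mem_EE he).2.2.1 p h⟩
  have hp3 : ∀ d ∈ Q, ∀ e ∈ EE (pr N ε w) (tt N) (τ d) (ζ d), ∀ T ∈ TT,
      part3 N w (d * e * ∏ p ∈ T, p) = d.primeFactors := by
    intro d hd e he T hTT
    unfold part3
    rw [hpf d hd e he T hTT]
    ext p
    simp only [mem_filter, mem_union]
    constructor
    · rintro ⟨(h | h) | h, h'⟩
      · exact h
      · have := ((mem_EE he).2.2.1 p h).2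
        linarith
      · have := hTt T hTT p h
        linarith
    · intro h
      exact ⟨Or.inl (Or.inl h), (hQ d hd).2.2 p h⟩
  have hinj : Set.InjOn (fun x : (_ : ℕ) × ((_ : ℕ) × Finset ℕ) =>
      x.1 * x.2.1 * ∏ p ∈ x.2.2, p) (S : Set ((_ : ℕ) × ((_ : ℕ) × Finset ℕ))) := by
    rintro ⟨d, e, T⟩ hx ⟨d', e', T'⟩ hx' heq
    rw [mem_coe, hS, mem_sigma, mem_sigma] at hx hx'
    obtain ⟨hd, he, hT1⟩ := hx
    obtain ⟨hd', he', hT1'⟩ := hx'
    simp only at hd he hT1 hd' he' hT1' heq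
    have e1 : T = T' := by
      rw [← hp1 d hd e he T hT1, ← hp1 d' hd' e' he' T' hT1', heq]
    have e2 : e = e' := by
      rw [← Nat.prod_primeFactors_of_squarefree (mem_EE he).2.1,
        ← Nat.prod_primeFactors_of_squarefree (mem_EE he').2.1,
        ← hp2 d hd e he T hT1, ← hp2 d' hd' e' he' T' hT1', heq]
    have e3 : d = d' := by
      rw [← Nat.prod_primeFactors_of_squarefree (hQ d hd).2.1,
        ← Nat.prod_primeFactors_of_squarefree (hQ d' hd').2.1,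
        ← hp3 d hd e he T hT1, ← hp3 d' hd' e' he' T' hT1', heq]
    subst e1 e2 e3
    rfl
  have e0 : ∑ d ∈ Q, ∑ e ∈ EE (pr N ε w) (tt N) (τ d) (ζ d), ∑ T ∈ TT, R (d * e * ∏ p ∈ T, p) =
      ∑ x ∈ S, R (x.1 * x.2.1 * ∏ p ∈ x.2.2, p) := by
    rw [hS, Finset.sum_sigma]
    apply Finset.sum_congr rfl
    intro d _
    rw [Finset.sum_sigma]
  rw [e0, ← Finset.sum_image (f := R) hinj]
  apply Finset.sum_le_sum_of_subset_of_nonneg
  · intro m hm
    rw [mem_image] at hm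
    obtain ⟨⟨d, e, T⟩, hx, rfl⟩ := hm
    rw [hS, mem_sigma, mem_sigma] at hx
    obtain ⟨hd, he, hT1⟩ := hx
    simp only at hd he hT1 ⊢
    have h1 := hQ d hd
    obtain ⟨h2, h3, h4, -⟩ := mem_EE he
    have h5 := hT0 T hT1
    have h6 : Squarefree (∏ p ∈ T, p) :=
      Finset.squarefree_prod_of_pairwise_isCoprime (fun p hp q hq hpq => by
        exact Nat.coprime_iff_isRelPrime.1
          ((Nat.coprime_primes (hTp T hT1 p hp) (hTp T hT1 q hq)).2 hpq))
        (fun p h => (hTp T hT1 p h).prime.squarefree)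
    have c1 : Nat.Coprime d e := by
      rw [← Nat.disjoint_primeFactors h1.1 h2, Finset.disjoint_left]
      intro p hp hp'
      have := h1.2.2 p hp
      have := (h4 p hp').2
      linarith
    have c2 : Nat.Coprime (d * e) (∏ p ∈ T, p) := by
      rw [← Nat.disjoint_primeFactors (mul_ne_zero h1.1 h2) h5, Finset.disjoint_left,
        Nat.primeFactors_mul h1.1 h2, hTf T hT1]
      intro p hp hp'
      have h7 := hTt T hT1 p hp'
      rcases mem_union.1 hp with h | h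
      · have := h1.2.2 p h
        linarith
      · have := (h4 p h).1
        linarith
    have hne : d * e * ∏ p ∈ T, p ≠ 0 := mul_ne_zero (mul_ne_zero h1.1 h2) h5
    unfold Lv'
    rw [mem_filter, mem_Icc]
    refine ⟨⟨Nat.pos_of_ne_zero hne, Nat.le_floor (hD d hd e he T hT1)⟩, ?_, ?_⟩
    · rw [Nat.squarefree_mul c2, Nat.squarefree_mul c1]
      exact ⟨⟨h1.2.1, h3⟩, h6⟩
    · rw [hpf d hd e he T hT1]
      intro p hp
      have hbig : ε ≤ tt N p → p.Prime → z < p := by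
        intro h hpp
        have := (le_tt_iff hN hpp _).1 h
        exact_mod_cast lt_of_lt_of_le hz this
      rcases mem_union.1 hp with h | h
      · rcases mem_union.1 h with h | h
        · exact hbig (hεw.trans (h1.2.2 p h)) (Nat.prime_of_mem_primeFactors h)
        · exact hbig (h4 p h).1 (Nat.prime_of_mem_primeFactors h)
      · exact (mem_P1.1 (hT T hT1 h)).1.1
  · intro m _ _
    exact hR m

end Pool.Agent.Y660.RP
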