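import Pool.Agent.Y660.RP.SV2

/-!
RP project (helper667), task SV (helper660): pointwise inequalities, main term and error term.
-/

set_option autoImplicit false

namespace Pool.Agent.Y660.RP

open Finset Pool.Agent.W23.DC

/-- the Richert weight of the middle prime `q` -/
noncomputable def cq (N : ℕ) (q : ℕ) : ℝ := 13 / 25 * (1 - tt N q / (97 / 100))

theorem cq_nonneg {N : ℕ} {u : ℝ} : ∀ q ∈ pr N u (97 / 100), 0 ≤ cq N q := by
  intro q hq
  have := (mem_pr.1 hq).2.2.2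
  unfold cq
  have h1 : tt N q / (97 / 100) ≤ 1 := by
    rw [div_le_one (by norm_num)]
    exact this.le
  nlinarith

theorem cq_le {N : ℕ} (hN : 2 ≤ N) {u v : ℝ} : ∀ q ∈ pr N u v, cq N q ≤ 13 / 25 := by
  intro q hq
  have := (siz hN u v).pos q hq
  unfold cq
  have h1 : 0 ≤ tt N q / (97 / 100) := by positivity
  nlinarith

open Classical in
/-- the indicator of the rough numbers -/
noncomputable def II (N : ℕ) (ε : ℝ) (n : ℕ) : ℝ :=
  if ∀ p ∈ pr N ε (1 / 4), ¬ p ∣ n then 1 else 0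

/-- the second level and the sifting limit -/
noncomputable def tq (N q : ℕ) : ℝ := 98 / 100 - tt N q
noncomputable def zq (N q : ℕ) : ℝ := min (1 / 4) (tq N q)

theorem II_le (N : ℕ) (hN : 2 ≤ N) (ε : ℝ) (K n : ℕ) (τ : ℝ) :
    II N ε n ≤ LL (pr N ε (1 / 4)) (tt N) (ind n) K true τ (1 / 4) 1 := by
  classical
  have hS := siz hN ε (1 / 4)
  have h1 := (Pool.Agent.W52.DC.PT (pr N ε (1 / 4)) (tt N) hS n K τ (1 / 4) 1
    (fun p hp _ h => (hS.pr p hp).one_lt.ne' (Nat.dvd_one.1 h))).1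
  refine le_trans ?_ h1
  unfold II
  split_ifs with h2 h3 h3
  · exact le_rfl
  · exact absurd ⟨one_dvd n, fun p hp _ => h2 p hp⟩ h3
  · norm_num
  · exact le_rfl

theorem II_ge (N : ℕ) (hN : 2 ≤ N) (ε : ℝ) (K n : ℕ) :
    LL (pr N ε (1 / 4)) (tt N) (ind n) K false (98 / 100) (1 / 4) 1 -
      ∑ q ∈ pr N (1 / 4) (97 / 100), cq N q *
        LL (pr N ε (1 / 4)) (tt N) (ind n) K true (tq N q) (zq N q) q ≤
      II N ε n * (1 - ∑ q ∈ pr N (1 / 4) (97 / 100), cq N q * (if q ∣ n then 1 else 0)) := by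
  classical
  have hS := siz hN ε (1 / 4)
  have h1 := (Pool.Agent.W52.DC.PT (pr N ε (1 / 4)) (tt N) hS n K (98 / 100) (1 / 4) 1
    (fun p hp _ h => (hS.pr p hp).one_lt.ne' (Nat.dvd_one.1 h))).2
  have h2 : ∀ q ∈ pr N (1 / 4) (97 / 100),
      II N ε n * (if q ∣ n then 1 else 0) ≤
      LL (pr N ε (1 / 4)) (tt N) (ind n) K true (tq N q) (zq N q) q := by
    intro q hq
    have h3 := (Pool.Agent.W52.DC.PT (pr N ε (1 / 4)) (tt N) hS n K (tq N q) (zq N q) q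
      (fun p hp _ h => by
      have h4 := (Nat.prime_dvd_prime_iff_eq (hS.pr p hp) (mem_pr.1 hq).2.1).1 h
      have h5 := (mem_pr.1 hp).2.2.2
      have h6 := (mem_pr.1 hq).2.2.1
      rw [h4] at h5
      linarith)).1
    refine le_trans ?_ h3
    unfold II
    by_cases h7 : ∀ p ∈ pr N ε (1 / 4), ¬ p ∣ n
    · by_cases h8 : q ∣ n
      · rw [if_pos h7, if_pos h8, if_pos ⟨h8, fun p hp _ => h7 p hp⟩, one_mul]
      · rw [if_neg h8, mul_zero]
        split_ifs <;> norm_num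
    · rw [if_neg h7, zero_mul]
      split_ifs <;> norm_num
  have h9 : LL (pr N ε (1 / 4)) (tt N) (ind n) K false (98 / 100) (1 / 4) 1 ≤ II N ε n := by
    refine h1.trans ?_
    unfold II
    by_cases h7 : ∀ p ∈ pr N ε (1 / 4), ¬ p ∣ n
    · rw [if_pos h7]
      split_ifs <;> norm_num
    · rw [if_neg h7, if_neg]
      rintro ⟨-, h8⟩
      exact h7 (fun p hp => h8 p hp (mem_pr.1 hp).2.2.2)
  have h10 : ∑ q ∈ pr N (1 / 4) (97 / 100), cq N q * (II N ε n * (if q ∣ n then 1 else 0)) ≤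
      ∑ q ∈ pr N (1 / 4) (97 / 100), cq N q *
        LL (pr N ε (1 / 4)) (tt N) (ind n) K true (tq N q) (zq N q) q :=
    Finset.sum_le_sum fun q hq => mul_le_mul_of_nonneg_left (h2 q hq) (cq_nonneg q hq)
  have h11 : II N ε n * (1 - ∑ q ∈ pr N (1 / 4) (97 / 100), cq N q * (if q ∣ n then 1 else 0)) =
      II N ε n - ∑ q ∈ pr N (1 / 4) (97 / 100), cq N q * (II N ε n * (if q ∣ n then 1 else 0)) := by
    rw [mul_sub, mul_one, Finset.mul_sum]
    congr 1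
    apply Finset.sum_congr rfl
    intro q _
    ring
  rw [h11]
  linarith

open Classical in
/-- the counting function and its remainder -/
noncomputable def rem {ι : Type} (Ω : Finset ι) (v : ι → ℕ) (g : ℕ → ℝ) (x : ℝ) (e : ℕ) : ℝ :=
  ((Ω.filter (fun i => e ∣ v i)).card : ℝ) - x * gp g e

theorem LL_main {ι : Type} {N : ℕ} (hN : 2 ≤ N) {ε w : ℝ} (Ω : Finset ι) (v : ι → ℕ) (g : ℕ → ℝ)
    (x : ℝ) (K : ℕ) (b : Bool) (τ ζ : ℝ) (d : ℕ) (hd : ∀ p ∈ pr N ε w, tt N p < ζ → ¬ p ∣ d) :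
    ∑ i ∈ Ω, LL (pr N ε w) (tt N) (ind (v i)) K b τ ζ d =
      x * (gp g d * MM (pr N ε w) (tt N) g K b τ ζ) +
      LL (pr N ε w) (tt N) (rem Ω v g x) K b τ ζ d := by
  classical
  have hLN := Pool.Agent.W120.DC.LN
  rw [← LL_sum (pr N ε w) (tt N) Ω (fun i => ind (v i)) K b τ ζ d]
  have h1 : (fun e => ∑ i ∈ Ω, ind (v i) e) = (fun e => x * gp g e + rem Ω v g x e) := by
    funext e
    unfold rem ind
    rw [Finset.sum_boole]
    ring
  have hmul : ∀ d, ∀ p ∈ pr N ε w, ¬ p ∣ d → gp g (d * p) = gp g d * g p := by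
    intro d p hp hpd
    have hpp := (mem_pr.1 hp).2.1
    rw [gp_mul g ((hpp.coprime_iff_not_dvd.2 hpd).symm)]
    congr 1
    unfold gp
    rw [hpp.primeFactors, Finset.prod_singleton]
  rw [h1, hLN.2.1 (pr N ε w) (tt N) x (gp g) (rem Ω v g x) K b τ ζ d,
    hLN.2.2 (pr N ε w) (tt N) (siz hN _ _) g (gp g) hmul K b τ ζ d hd]

theorem err_bound {ι : Type} {N : ℕ} (hN : 2 ≤ N) {ε w : ℝ} (hεw : ε ≤ w) (Ω : Finset ι)
    (v : ι → ℕ) (g : ℕ → ℝ) (hg : ∀ p ∈ pr N ε w, 0 ≤ g p) (x β J2 : ℝ) (TT : Finset (Finset ℕ))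
    (R : ℕ → ℝ) (hx : 0 ≤ x) (hβ : 0 ≤ β)
    (hr : ∀ e, e ≠ 0 → (∀ p ∈ e.primeFactors, ε ≤ tt N p) → 0 ≤ gp g e →
      |rem Ω v g x e| ≤ β * (x * gp g e) + J2 * ∑ T ∈ TT, R (e * ∏ p ∈ T, p))
    (K : ℕ) (b : Bool) (τ ζ : ℝ) (d : ℕ) (hd : d ≠ 0) (hdw : ∀ p ∈ d.primeFactors, w ≤ tt N p)
    (hgd : 0 ≤ gp g d) (hτ : 0 ≤ τ) (hb : b = false → 2 * ζ ≤ τ) :
    |LL (pr N ε w) (tt N) (rem Ω v g x) K b τ ζ d| ≤
      β * (x * (gp g d * ∏ p ∈ pr N ε w, (1 + g p))) +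
        J2 * ∑ e ∈ EE (pr N ε w) (tt N) τ ζ, ∑ T ∈ TT, R (d * e * ∏ p ∈ T, p) := by
  classical
  refine (Pool.Agent.W586.DC.ER (pr N ε w) (tt N) (siz hN _ _) (rem Ω v g x) K b τ ζ d hτ
    hb).trans ?_
  have hge : ∀ e ∈ EE (pr N ε w) (tt N) τ ζ, 0 ≤ gp g e := by
    intro e he
    obtain ⟨h0, -, h1, -⟩ := mem_EE he
    apply Finset.prod_nonneg
    intro p hp
    have hpp := Nat.prime_of_mem_primeFactors hp
    apply hg
    rw [mem_pr]
    refine ⟨⟨hpp.pos, ?_⟩, hpp, h1 p hp⟩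
    -- `p` is an element of `pr`
    have : p ∈ pr N ε w := by
      unfold EE at he
      rw [mem_filter, mem_image] at he
      obtain ⟨⟨s, hs, rfl⟩, -⟩ := he
      have hs' : ∀ q ∈ s, q ∈ pr N ε w := fun q hq =>
        (mem_filter.1 (mem_powerset.1 hs hq)).1
      rw [Nat.primeFactors_prod (fun q hq => (mem_pr.1 (hs' q hq)).2.1)] at hp
      exact hs' p hp
    exact (mem_pr.1 this).1.2
  have hcop : ∀ e ∈ EE (pr N ε w) (tt N) τ ζ, Nat.Coprime d e := by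
    intro e he
    obtain ⟨h0, -, h1, -⟩ := mem_EE he
    rw [← Nat.disjoint_primeFactors hd h0, Finset.disjoint_left]
    intro p hp hp'
    have := hdw p hp
    have := (h1 p hp').2
    linarith
  have h1 : ∀ e ∈ EE (pr N ε w) (tt N) τ ζ, |rem Ω v g x (d * e)| ≤
      β * (x * (gp g d * gp g e)) + J2 * ∑ T ∈ TT, R (d * e * ∏ p ∈ T, p) := by
    intro e he
    obtain ⟨h0, -, h1, -⟩ := mem_EE he
    have h2 := gp_mul g (hcop e he)
    have h3 := hr (d * e) (mul_ne_zero hd h0) (by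
      intro p hp
      rw [Nat.primeFactors_mul hd h0, mem_union] at hp
      rcases hp with h | h
      · exact hεw.trans (hdw p h)
      · exact (h1 p h).1) (by rw [h2]; exact mul_nonneg hgd (hge e he))
    rw [h2] at h3
    exact h3
  refine (Finset.sum_le_sum h1).trans ?_
  rw [Finset.sum_add_distrib]
  have h2 := sum_EE_le (pr N ε w) (tt N) (fun p hp => (mem_pr.1 hp).2.1) g hg τ ζ
  have h3 : ∑ e ∈ EE (pr N ε w) (tt N) τ ζ, β * (x * (gp g d * gp g e)) ≤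
      β * (x * (gp g d * ∏ p ∈ pr N ε w, (1 + g p))) := by
    simp only [← Finset.mul_sum]
    gcongr
  have h4 : ∑ e ∈ EE (pr N ε w) (tt N) τ ζ, J2 * ∑ T ∈ TT, R (d * e * ∏ p ∈ T, p) =
      J2 * ∑ e ∈ EE (pr N ε w) (tt N) τ ζ, ∑ T ∈ TT, R (d * e * ∏ p ∈ T, p) := by
    rw [Finset.mul_sum]
  linarith

end Pool.Agent.Y660.RP
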