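import Pool.Agent.Y660.RP.SV3
import Pool.Agent.W378.DC.MP

/-!
RP project (helper667), task SV (helper660): asymptotic lemmas.
-/

set_option autoImplicit false

namespace Pool.Agent.Y660.RP

open Finset Pool.Agent.W23.DC Filter

theorem ev_rpow (ε : ℝ) (hε : 0 < ε) (B : ℝ) : ∃ N₀ : ℕ, ∀ N : ℕ, N₀ ≤ N → B < (N : ℝ) ^ ε :=
  eventually_atTop.1 (((tendsto_rpow_atTop hε).comp tendsto_natCast_atTop_atTop).eventually_gt_atTop
    B)

theorem ev_log (B : ℝ) : ∃ N₀ : ℕ, ∀ N : ℕ, N₀ ≤ N → B < Real.log N :=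
  eventually_atTop.1 ((Real.tendsto_log_atTop.comp tendsto_natCast_atTop_atTop).eventually_gt_atTop
    B)

theorem exJ (ε : ℝ) (hε : 0 < ε) (hε1 : ε ≤ 1) (n : ℕ) (hn : 2 * ε * n ≤ 1 / 100) :
    ∃ N₀ : ℕ, ∀ N : ℕ, N₀ ≤ N → ∃ J : ℕ,
      (∀ p : ℕ, (p : ℝ) < (N : ℝ) ^ ε → p ≤ 2 ^ 2 ^ J) ∧
      (((2 ^ 2 ^ J) ^ n : ℕ) : ℝ) ≤ (N : ℝ) ^ (1 / 100 : ℝ) ∧ 2 * ((J : ℝ) + 2) ≤ Real.log N := by
  classical
  obtain ⟨N₁, h1⟩ := ev_rpow ε hε 2
  obtain ⟨N₂, h2⟩ := ev_log 16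
  refine ⟨max (max N₁ N₂) 2, fun N hN => ?_⟩
  have hNN₁ : N₁ ≤ N := ((le_max_left _ _).trans (le_max_left _ _)).trans hN
  have hNN₂ : N₂ ≤ N := ((le_max_right _ _).trans (le_max_left _ _)).trans hN
  have hN2 : 2 ≤ N := (le_max_right _ _).trans hN
  have hy := h1 N hNN₁
  have hl := h2 N hNN₂
  have hNr : (1 : ℝ) ≤ N := by exact_mod_cast (by omega : 1 ≤ N)
  set y : ℝ := (N : ℝ) ^ ε with hyd
  have hex : ∃ J : ℕ, y ≤ (2 : ℝ) ^ (2 ^ J) := by
    obtain ⟨m, hm⟩ := pow_unbounded_of_one_lt y (one_lt_two : (1 : ℝ) < 2)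
    refine ⟨m, hm.le.trans ?_⟩
    exact pow_le_pow_right₀ (by norm_num) (Nat.lt_two_pow_self).le
  have hJ := Nat.find_spec hex
  rcases hJ0 : Nat.find hex with _ | j
  · rw [hJ0] at hJ
    norm_num at hJ
    linarith
  · have hj : (2 : ℝ) ^ (2 ^ j) < y := by
      have := Nat.find_min hex (show j < Nat.find hex by omega)
      exact not_le.1 this
    rw [hJ0] at hJ
    refine ⟨j + 1, ?_, ?_, ?_⟩
    · intro p hp
      have : (p : ℝ) ≤ ((2 ^ 2 ^ (j + 1) : ℕ) : ℝ) := by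
        push_cast
        linarith
      exact_mod_cast this
    · have e1 : (2 : ℝ) ^ (2 ^ (j + 1)) = ((2 : ℝ) ^ (2 ^ j)) ^ 2 := by
        rw [← pow_mul]
        congr 1
      have e2 : (2 : ℝ) ^ (2 ^ (j + 1)) ≤ y ^ 2 := by
        rw [e1]
        exact pow_le_pow_left₀ (by positivity) hj.le 2
      push_cast
      calc ((2 : ℝ) ^ (2 ^ (j + 1))) ^ n ≤ (y ^ 2) ^ n := pow_le_pow_left₀ (by positivity) e2 n
        _ = (N : ℝ) ^ (2 * ε * n) := by
          rw [hyd, ← Real.rpow_natCast, ← Real.rpow_natCast, ← Real.rpow_mul (by linarith),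
            ← Real.rpow_mul (by linarith)]
          congr 1
          push_cast
          ring
        _ ≤ (N : ℝ) ^ (1 / 100 : ℝ) := Real.rpow_le_rpow_of_exponent_le hNr hn
    · have e1 : (2 : ℝ) ^ j * Real.log 2 < ε * Real.log N := by
        have := Real.log_lt_log (by positivity) hj
        rw [Real.log_pow, hyd, Real.log_rpow (by linarith)] at this
        push_cast at this
        exact this
      have e2 : ε * Real.log N ≤ Real.log N := by nlinarith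
      have e3 : (2 : ℝ) ^ j < 2 * Real.log N := by
        have := Real.log_two_gt_d9
        have h3 : (0 : ℝ) < 2 ^ j := by positivity
        nlinarith
      rcases lt_or_ge j 5 with h5 | h5
      · have : (j : ℝ) ≤ 4 := by exact_mod_cast (by omega : j ≤ 4)
        push_cast
        linarith
      · have e4 : 4 * (j + 3) ≤ 2 ^ j := by
          clear hJ0 hj e1 e2 e3 hJ
          induction j, h5 using Nat.le_induction with
          | base => norm_num
          | succ k hk ih =>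
            rw [pow_succ]
            omega
        have e5 : (4 : ℝ) * (j + 3) ≤ 2 ^ j := by exact_mod_cast e4
        push_cast
        linarith

/-- hypotheses on the density -/
def Dn (z S : ℕ) (g : ℕ → ℝ) : Prop :=
  ∀ p : ℕ, p.Prime → z < p → 0 ≤ g p ∧ g p ≤ 1 / ((p : ℝ) - 1) ∧
    (¬ p ∣ S → g p = 1 / ((p : ℝ) - 1))

theorem merg (z : ℕ) (ε η : ℝ) (hε : 0 < ε) (hη : 0 < η) : ∃ N₀ : ℕ, ∀ N : ℕ, N₀ ≤ N →
    ∀ (g : ℕ → ℝ) (S : ℕ), S ≠ 0 → S ≤ N → Dn z S g →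
      Mer (pr N ε (1 / 4)) (tt N) g ε (1 / 4) η := by
  classical
  obtain ⟨N₁, h1⟩ := mer_of Pool.Agent.W378.DC.MP ε (1 / 4) (η / 2) hε (by norm_num)
    (by positivity)
  obtain ⟨N₂, h2⟩ := ev_rpow ε hε (max z (1 + 2 / (ε * η)))
  refine ⟨max (max N₁ N₂) 2, fun N hN g S hS0 hSN hg a b ha hab hb => ?_⟩
  have hNN₁ : N₁ ≤ N := ((le_max_left _ _).trans (le_max_left _ _)).trans hN
  have hNN₂ : N₂ ≤ N := ((le_max_right _ _).trans (le_max_left _ _)).trans hN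
  have hN2 : 2 ≤ N := (le_max_right _ _).trans hN
  have h3 := h1 N hNN₁ a b ha hab hb
  have hy := h2 N hNN₂
  have hyz : (z : ℝ) < (N : ℝ) ^ ε := lt_of_le_of_lt (le_max_left _ _) hy
  have hy2 : 1 + 2 / (ε * η) < (N : ℝ) ^ ε := lt_of_le_of_lt (le_max_right _ _) hy
  set y : ℝ := (N : ℝ) ^ ε with hyd
  have hpos : 0 < 2 / (ε * η) := by positivity
  have hy1 : 0 < y - 1 := by linarith
  have hNr : (1 : ℝ) < N := by exact_mod_cast (by omega : 1 < N)
  -- primes of `pr` are large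
  have hbig : ∀ p ∈ pr N ε (1 / 4), y ≤ p := fun p hp =>
    (le_tt_iff hN2 (mem_pr.1 hp).2.1 _).1 (mem_pr.1 hp).2.2.1
  have hzp : ∀ p ∈ pr N ε (1 / 4), z < p := by
    intro p hp
    have := lt_of_lt_of_le hyz (hbig p hp)
    exact_mod_cast this
  set F := (pr N ε (1 / 4)).filter (fun p => a ≤ tt N p ∧ tt N p < b) with hF
  set T := (pr N ε (1 / 4)).filter (fun p => p ∣ S) with hT
  have hTp : ∀ p ∈ T, p.Prime := fun p hp => (mem_pr.1 (mem_filter.1 hp).1).2.1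
  have hcard : (T.card : ℝ) * ε ≤ 1 := by
    have e1 : ∏ p ∈ T, p ≤ N :=
      (Nat.le_of_dvd (Nat.pos_of_ne_zero hS0) ((prod_dvd hTp S).2 fun p hp =>
        (mem_filter.1 hp).2)).trans hSN
    have e2 : y ^ T.card ≤ ((∏ p ∈ T, p : ℕ) : ℝ) := by
      push_cast
      rw [← Finset.prod_const]
      apply Finset.prod_le_prod
      · intro p _
        linarith
      · intro p hp
        exact hbig p (mem_filter.1 hp).1
    have e3 : y ^ T.card ≤ (N : ℝ) := e2.trans (by exact_mod_cast e1)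
    have e4 : (N : ℝ) ^ (ε * T.card) ≤ (N : ℝ) ^ (1 : ℝ) := by
      rw [Real.rpow_mul (by linarith), Real.rpow_natCast, Real.rpow_one]
      exact e3
    have e5 := (Real.rpow_le_rpow_left_iff hNr).1 e4
    linarith
  have hdiff : |∑ p ∈ F, g p - ∑ p ∈ F, 1 / ((p : ℝ) - 1)| ≤ η / 2 := by
    rw [← Finset.sum_sub_distrib]
    refine (Finset.abs_sum_le_sum_abs _ _).trans ?_
    have e1 : ∀ p ∈ F, |g p - 1 / ((p : ℝ) - 1)| ≤ if p ∣ S then 1 / (y - 1) else 0 := by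
      intro p hp
      have hp' := (mem_filter.1 hp).1
      have hgp := hg p (mem_pr.1 hp').2.1 (hzp p hp')
      split_ifs with h
      · have h6 := hbig p hp'
        have h7 : 1 / ((p : ℝ) - 1) ≤ 1 / (y - 1) := by
          apply one_div_le_one_div_of_le hy1
          linarith
        rw [abs_le]
        constructor
        · linarith [hgp.1]
        · have h8 : 0 < 1 / (y - 1) := by positivity
          linarith [hgp.2.1]
      · rw [hgp.2.2 h, sub_self, abs_zero]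
    refine (Finset.sum_le_sum e1).trans ?_
    have e2 : ∑ p ∈ F, (if p ∣ S then 1 / (y - 1) else 0) ≤
        ∑ p ∈ pr N ε (1 / 4), (if p ∣ S then 1 / (y - 1) else 0) := by
      apply Finset.sum_le_sum_of_subset_of_nonneg (filter_subset _ _)
      intro p _ _
      split_ifs
      · positivity
      · exact le_rfl
    refine e2.trans ?_
    rw [← Finset.sum_filter, Finset.sum_const, nsmul_eq_mul]
    have e3 : (2 / (ε * η)) < y - 1 := by linarith
    have e4 : 1 / (y - 1) ≤ ε * η / 2 := by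
      rw [div_le_iff₀ hy1]
      rw [div_lt_iff₀ (by positivity)] at e3
      linarith
    have e5 : (0 : ℝ) ≤ T.card := Nat.cast_nonneg _
    calc (T.card : ℝ) * (1 / (y - 1)) ≤ T.card * (ε * η / 2) := by gcongr
      _ = (T.card * ε) * (η / 2) := by ring
      _ ≤ 1 * (η / 2) := by gcongr
      _ = η / 2 := one_mul _
  have h9 : ∑ p ∈ F, g p - Real.log (b / a) =
      (∑ p ∈ F, g p - ∑ p ∈ F, 1 / ((p : ℝ) - 1)) +
        (∑ p ∈ F, 1 / ((p : ℝ) - 1) - Real.log (b / a)) := by ring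
  rw [h9]
  calc _ ≤ |∑ p ∈ F, g p - ∑ p ∈ F, 1 / ((p : ℝ) - 1)| +
        |∑ p ∈ F, 1 / ((p : ℝ) - 1) - Real.log (b / a)| := abs_add_le _ _
    _ ≤ η / 2 + η / 2 := add_le_add hdiff h3
    _ = η := by ring

theorem prod_le {N : ℕ} {ε η : ℝ} (hε : 0 < ε) (hε4 : ε ≤ 1 / 4) (hη : η ≤ 1) (g : ℕ → ℝ)
    (hg : ∀ p ∈ pr N ε (1 / 4), 0 ≤ g p) (h : Mer (pr N ε (1 / 4)) (tt N) g ε (1 / 4) η) :
    ∏ p ∈ pr N ε (1 / 4), (1 + g p) ≤ 1 / ε := by
  classical
  have h1 := h ε (1 / 4) le_rfl hε4 le_rfl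
  rw [pr_sub N ε (1 / 4) ε (1 / 4) le_rfl le_rfl] at h1
  have h2 := (abs_le.1 h1).2
  have h3 : ∏ p ∈ pr N ε (1 / 4), (1 + g p) ≤ Real.exp (∑ p ∈ pr N ε (1 / 4), g p) := by
    rw [Real.exp_sum]
    apply Finset.prod_le_prod
    · intro p hp
      linarith [hg p hp]
    · intro p _
      have := Real.add_one_le_exp (g p)
      linarith
  refine h3.trans ?_
  calc Real.exp (∑ p ∈ pr N ε (1 / 4), g p) ≤ Real.exp (Real.log (1 / 4 / ε) + 1) := by
        apply Real.exp_le_exp.2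
        linarith
    _ = 1 / 4 / ε * Real.exp 1 := by
        rw [Real.exp_add, Real.exp_log (by positivity)]
    _ ≤ 1 / 4 / ε * 4 := by
        have := Real.exp_one_lt_d9
        gcongr
        linarith
    _ = 1 / ε := by ring

theorem middle (η : ℝ) (hη : 0 < η) (z : ℕ) : ∃ N₀ : ℕ, ∀ N : ℕ, N₀ ≤ N →
    ∀ (g : ℕ → ℝ) (S : ℕ), Dn z S g →
      (∀ q ∈ pr N (1 / 4) (97 / 100), z < q) ∧
      ∑ q ∈ pr N (1 / 4) (97 / 100), g q ≤ Real.log (97 / 25) + η := by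
  obtain ⟨N₁, h1⟩ := Pool.Agent.W378.DC.MP (1 / 4) η (by norm_num) hη
  obtain ⟨N₂, h2⟩ := ev_rpow (1 / 4) (by norm_num) z
  refine ⟨max (max N₁ N₂) 2, fun N hN g S hg => ?_⟩
  have hNN₁ : N₁ ≤ N := ((le_max_left _ _).trans (le_max_left _ _)).trans hN
  have hNN₂ : N₂ ≤ N := ((le_max_right _ _).trans (le_max_left _ _)).trans hN
  have hN2 : 2 ≤ N := (le_max_right _ _).trans hN
  have h3 := (abs_le.1 (h1 N hNN₁ (1 / 4) (97 / 100) le_rfl (by norm_num) (by norm_num))).2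
  have h4 := h2 N hNN₂
  have hz : ∀ q ∈ pr N (1 / 4) (97 / 100), z < q := by
    intro q hq
    have := lt_of_lt_of_le h4 ((le_tt_iff hN2 (mem_pr.1 hq).2.1 _).1 (mem_pr.1 hq).2.2.1)
    exact_mod_cast this
  refine ⟨hz, ?_⟩
  have h5 : ∑ q ∈ pr N (1 / 4) (97 / 100), g q ≤
      ∑ q ∈ pr N (1 / 4) (97 / 100), 1 / ((q : ℝ) - 1) :=
    Finset.sum_le_sum fun q hq => (hg q (mem_pr.1 hq).2.1 (hz q hq)).2.1
  have h6 : (97 / 100 / (1 / 4) : ℝ) = 97 / 25 := by norm_num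
  rw [h6] at h3
  linarith

theorem log_97 : Real.log (97 / 25) ≤ 3 / 2 := by
  rw [Real.log_le_iff_le_exp (by norm_num)]
  have h3 := Real.exp_one_gt_d9
  have h4 : Real.exp (3 / 2) = Real.exp 1 * Real.exp (1 / 2) := by
    rw [← Real.exp_add]
    norm_num
  have h5 := Real.add_one_le_exp (1 / 2 : ℝ)
  rw [h4]
  nlinarith

end Pool.Agent.Y660.RP
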